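import Pool.Agent.U337.EM.Stm

set_option autoImplicit false

/-!
Project EM, package FQ: the Fox module of any Lie algebra with finite-dimensional abelianization.
-/

open MvPolynomial

namespace Pool.Agent.U739.EM.FQ

open Pool.Agent.U337.EM

section
variable {F : Type} [Field F] {L : Type} [LieRing L] [LieAlgebra F L]

lemma ds_succ (k : ℕ) : LieAlgebra.derivedSeries F L (k + 1) =
    ⁅LieAlgebra.derivedSeries F L k, LieAlgebra.derivedSeries F L k⁆ :=
  LieAlgebra.derivedSeriesOfIdeal_succ F L ⊤ k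

/-- a linear map which kills all brackets of elements of `D^k` kills `D^(k+1)` -/
lemma kill {N : Type} [AddCommGroup N] [Module F N] (k : ℕ) (b : L →ₗ[F] N)
    (h : ∀ x ∈ LieAlgebra.derivedSeries F L k, ∀ y ∈ LieAlgebra.derivedSeries F L k, b ⁅x, y⁆ = 0)
    {x : L} (hx : x ∈ LieAlgebra.derivedSeries F L (k + 1)) : b x = 0 := by
  rw [ds_succ, ← LieSubmodule.mem_toSubmodule, LieSubmodule.lieIdeal_oper_eq_linear_span'] at hx
  have h1 : Submodule.span F {m : L | ∃ x ∈ LieAlgebra.derivedSeries F L k,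
      ∃ n ∈ LieAlgebra.derivedSeries F L k, ⁅x, n⁆ = m} ≤ LinearMap.ker b := by
    rw [Submodule.span_le]
    rintro _ ⟨x, hx, y, hy, rfl⟩
    exact h x hx y hy
  exact h1 hx

lemma bracket_mem (k : ℕ) {x y : L} (hx : x ∈ LieAlgebra.derivedSeries F L k)
    (hy : y ∈ LieAlgebra.derivedSeries F L k) : ⁅x, y⁆ ∈ LieAlgebra.derivedSeries F L (k + 1) := by
  rw [ds_succ]
  exact LieSubmodule.lie_mem_lie hx hy

lemma mem_zero (x : L) : x ∈ LieAlgebra.derivedSeries F L 0 := by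
  rw [LieAlgebra.derivedSeries_def, LieAlgebra.derivedSeriesOfIdeal_zero]
  exact LieSubmodule.mem_top x

end

theorem t_FQ : S_FX → S_FQ := by
  intro hFX F _ _ L _ _ d ab hab
  set I : LieIdeal F L := LieAlgebra.derivedSeries F L 2 with hI
  -- `ab` kills the derived algebra
  have hab0 : ∀ a b : L, ab ⁅a, b⁆ = 0 := fun a b =>
    (hab.2 _).2 (Submodule.subset_span ⟨a, b, rfl⟩)
  have hab1 : ∀ x ∈ LieAlgebra.derivedSeries F L 1, ab x = 0 := fun x hx =>
    kill 0 ab (fun a _ b _ => hab0 a b) hx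
  have hab2 : ∀ x ∈ I, ab x = 0 := fun x hx => kill 1 ab (fun a _ b _ => hab0 a b) hx
  let q : L →ₗ[F] L ⧸ I := I.toSubmodule.mkQ
  have hq : Function.Surjective q := Submodule.mkQ_surjective _
  have hqb : ∀ x y, q ⁅x, y⁆ = ⁅q x, q y⁆ := fun x y => rfl
  have hq0 : ∀ x, q x = 0 ↔ x ∈ I := fun x => Submodule.Quotient.mk_eq_zero _
  let ab' : (L ⧸ I) →ₗ[F] (Fin d → F) := I.toSubmodule.liftQ ab (fun x hx => hab2 x hx)
  have hab' : ∀ x, ab' (q x) = ab x := fun x => Submodule.liftQ_apply _ _ _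
  have hmet : ∀ a b c e : L ⧸ I, ⁅⁅a, b⁆, ⁅c, e⁆⁆ = 0 := by
    intro a b c e
    obtain ⟨a, rfl⟩ := hq a
    obtain ⟨b, rfl⟩ := hq b
    obtain ⟨c, rfl⟩ := hq c
    obtain ⟨e, rfl⟩ := hq e
    rw [← hqb, ← hqb, ← hqb, hq0]
    exact bracket_mem 1 (bracket_mem 0 (mem_zero a) (mem_zero b))
      (bracket_mem 0 (mem_zero c) (mem_zero e))
  have hIsAb : IsAb ab' := by
    refine ⟨fun v => ?_, fun z => ?_⟩
    · obtain ⟨x, hx⟩ := hab.1 v
      exact ⟨q x, (hab' x).trans hx⟩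
    · obtain ⟨x, rfl⟩ := hq z
      rw [hab']
      constructor
      · intro h
        have h1 := (hab.2 x).1 h
        have h2 : Submodule.span F {z : L | ∃ a b : L, ⁅a, b⁆ = z} ≤
            (Submodule.span F {z : L ⧸ I | ∃ a b : L ⧸ I, ⁅a, b⁆ = z}).comap q := by
          rw [Submodule.span_le]
          rintro _ ⟨a, b, rfl⟩
          exact Submodule.subset_span ⟨q a, q b, (hqb a b).symm⟩
        exact h2 h1
      · intro h
        have h2 : Submodule.span F {z : L ⧸ I | ∃ a b : L ⧸ I, ⁅a, b⁆ = z} ≤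
            LinearMap.ker ab' := by
          rw [Submodule.span_le]
          rintro _ ⟨a, b, rfl⟩
          obtain ⟨a, rfl⟩ := hq a
          obtain ⟨b, rfl⟩ := hq b
          show ab' ⁅q a, q b⁆ = 0
          rw [← hqb, hab', hab0]
        have h3 : ab' (q x) = 0 := h2 h
        rwa [hab'] at h3
  obtain ⟨M, i1, i2, i3, i4, ⟨fox⟩⟩ := hFX F (L ⧸ I) d ab' hIsAb hmet
  have hlf : ∀ x, lf ab' (q x) = lf ab x := by
    intro x
    unfold lf
    rw [hab']
  have hlf0 : ∀ x ∈ LieAlgebra.derivedSeries F L 1, lf ab x = 0 := by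
    intro x hx
    unfold lf
    simp [hab1 x hx]
  refine ⟨M, i1, i2, i3, i4, ⟨⟨fox.pr, fox.io ∘ₗ q, ?_, ?_, ?_, ?_, ?_, ?_⟩⟩⟩
  · intro x
    rw [LinearMap.comp_apply, fox.h1, hlf]
  · intro x y
    rw [LinearMap.comp_apply, LinearMap.comp_apply, LinearMap.comp_apply, hqb, fox.h2, hlf, hlf]
  · intro B N _ _ _ _ _ _ κ b hb
    have hb2 : ∀ x ∈ I, b x = 0 := fun x hx => kill 1 b (fun x hx y hy => by
      rw [hb, hlf0 x hx, hlf0 y hy]
      simp) hx
    let b' : (L ⧸ I) →ₗ[F] N := I.toSubmodule.liftQ b (fun x hx => hb2 x hx)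
    have hb' : ∀ x, b' (q x) = b x := fun x => Submodule.liftQ_apply _ _ _
    obtain ⟨β, h1, h2⟩ := fox.h3 B N κ b' (by
      intro x y
      obtain ⟨x, rfl⟩ := hq x
      obtain ⟨y, rfl⟩ := hq y
      rw [← hqb, hb', hb', hb', hlf, hlf, hb])
    refine ⟨β, h1, fun x => ?_⟩
    rw [LinearMap.comp_apply, h2, hb']
  · rw [← fox.h4]
    congr 1
    ext m
    constructor
    · rintro ⟨x, rfl⟩
      exact ⟨q x, rfl⟩
    · rintro ⟨z, rfl⟩
      obtain ⟨x, rfl⟩ := hq z
      exact ⟨x, rfl⟩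
  · intro m hm
    obtain ⟨z, hz⟩ := fox.h5 m hm
    obtain ⟨x, rfl⟩ := hq z
    exact ⟨x, hz⟩
  · intro x hx
    have h1 := fox.h6 (q x) hx
    have h2 : q x = 0 := by
      refine kill 1 (LinearMap.id : (L ⧸ I) →ₗ[F] (L ⧸ I)) (fun u hu w hw => ?_) h1
      -- the derived algebra of the quotient is abelian
      have key : ∀ u ∈ LieAlgebra.derivedSeries F (L ⧸ I) 1, ∀ a b : L ⧸ I, ⁅u, ⁅a, b⁆⁆ = 0 := by
        intro u hu a b
        have := kill 0 (-(LieModule.toEnd F (L ⧸ I) (L ⧸ I) ⁅a, b⁆)) (fun x _ y _ => by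
          rw [LinearMap.neg_apply, LieModule.toEnd_apply_apply, hmet, neg_zero]) hu
        rw [LinearMap.neg_apply, LieModule.toEnd_apply_apply, lie_skew] at this
        exact this
      have := kill 0 (LieModule.toEnd F (L ⧸ I) (L ⧸ I) u) (fun x _ y _ => by
        rw [LieModule.toEnd_apply_apply]; exact key u hu x y) hw
      rwa [LieModule.toEnd_apply_apply] at this
    exact (hq0 x).1 h2

end Pool.Agent.U739.EM.FQ
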